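import Mathlib

set_option autoImplicit false

open Finset SimpleGraph

namespace Pool.Agent.Results.MP_72856e_co.Counter

/-- every vertex outside `D` has a neighbour in `D` -/
def Dominating {V : Type} (G : SimpleGraph V) (D : Set V) : Prop := ∀ v ∉ D, ∃ u ∈ D, G.Adj v u

/-- the domatic number: the largest number of classes of a partition into dominating sets -/
noncomputable def domatic {V : Type} (G : SimpleGraph V) : ℕ∞ :=
  ⨆ (k : ℕ) (_ : ∃ f : V → Fin k, ∀ i, Dominating G (f ⁻¹' {i})), (k : ℕ∞)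

/-- the least order of a maximal complete subgraph -/
noncomputable def minClique {V : Type} (G : SimpleGraph V) : ℕ∞ :=
  ⨅ (s : Set V) (_ : Maximal G.IsClique s), s.encard

/-- the clique graph: maximal complete subgraphs, adjacent when they share a vertex -/
def cliqueGraph {V : Type} (G : SimpleGraph V) : SimpleGraph {s : Set V // Maximal G.IsClique s} where
  Adj s t := s ≠ t ∧ (s.1 ∩ t.1).Nonempty
  symm := ⟨fun _ _ h => ⟨h.1.symm, Set.inter_comm _ _ ▸ h.2⟩⟩
  loopless := ⟨fun _ h => h.1 rfl⟩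

/-- vertex `(j, 0)` lies in clique `j` only, the vertices `(j, a)` with `a ≠ 0` lie in the cliques
`j` and `j + 1` -/
def mem (i : Fin 5) (v : Fin 5 × Fin 4) : Prop := v.1 = i ∨ (v.1 + 1 = i ∧ v.2 ≠ 0)

instance (i : Fin 5) : DecidablePred (mem i) := fun v => by unfold mem; infer_instance

/-- five cliques of order seven arranged in a cycle -/
def G : SimpleGraph (Fin 5 × Fin 4) where
  Adj u v := u ≠ v ∧ ∃ i, mem i u ∧ mem i v
  symm := ⟨fun _ _ ⟨h, i, a, b⟩ => ⟨h.symm, i, b, a⟩⟩
  loopless := ⟨fun _ h => h.1 rfl⟩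

instance : DecidableRel G.Adj := fun u v => by unfold G; infer_instance

theorem clique_Q (i : Fin 5) : G.IsClique {v | mem i v} := fun _ a _ b h => ⟨h, i, a, b⟩

theorem sub_Q (s : Set (Fin 5 × Fin 4)) (hs : G.IsClique s) : ∃ i, s ⊆ {v | mem i v} := by
  by_contra h
  push Not at h
  simp only [Set.not_subset, Set.mem_ofPred_eq] at h
  obtain ⟨u, hu, hu'⟩ := h 0
  obtain ⟨v, hv, hv'⟩ := h u.1
  have key : ∀ u v : Fin 5 × Fin 4, ¬ mem u.1 v → (u ≠ v → G.Adj u v) →
      ∀ w, ¬ mem (u.1 + 1) w → (u ≠ w → G.Adj u w) → (v ≠ w → G.Adj v w) → False := by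
    decide +kernel
  obtain ⟨w, hw, hw'⟩ := h (u.1 + 1)
  exact key u v hv' (hs hu hv) w hw' (hs hu hw) (hs hv hw)

theorem Q_inj {i j : Fin 5} (h : {v | mem i v} ⊆ {v | mem j v}) : i = j := by
  have : mem j (i, 0) := h (Or.inl rfl : mem i (i, 0))
  simpa [mem] using this

theorem max_iff (s : Set (Fin 5 × Fin 4)) : Maximal G.IsClique s ↔ ∃ i, s = {v | mem i v} := by
  constructor
  · intro h
    obtain ⟨i, hi⟩ := sub_Q s h.1
    exact ⟨i, hi.antisymm (h.2 (clique_Q i) hi)⟩
  · rintro ⟨i, rfl⟩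
    refine ⟨clique_Q i, fun t ht hle => ?_⟩
    obtain ⟨j, hj⟩ := sub_Q t ht
    rw [Q_inj (hle.trans hj)]
    exact hj

/-- There is a finite graph whose clique graph is the `5`-cycle and whose domatic number is
smaller than the order of its smallest clique. -/
theorem result : ∃ (V : Type) (_ : Finite V) (H : SimpleGraph V) (n : ℕ), Odd n ∧ 3 ≤ n ∧
    Nonempty (cliqueGraph H ≃g cycleGraph n) ∧ domatic H < minClique H := by
  refine ⟨_, inferInstance, G, 5, by decide, by norm_num, ⟨RelIso.symm ⟨Equiv.ofBijective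
    (fun i => ⟨{v | mem i v}, (max_iff _).2 ⟨i, rfl⟩⟩) ⟨fun i j h => ?_, fun s => ?_⟩, ?_⟩⟩, ?_⟩
  · exact Q_inj (congrArg Subtype.val h).le
  · obtain ⟨i, hi⟩ := (max_iff _).1 s.2
    exact ⟨i, Subtype.ext hi.symm⟩
  · intro i j
    have key : ∀ i j : Fin 5, (i ≠ j ∧ ∃ v, mem i v ∧ mem j v) ↔ (cycleGraph 5).Adj i j := by
      decide +kernel
    rw [← key]
    refine and_congr (not_congr ⟨fun h => Q_inj (congrArg Subtype.val h).le, fun h => ?_⟩) Iff.rfl
    rw [h]
  · refine lt_of_le_of_lt (b := (6 : ℕ∞)) ?_ (lt_of_lt_of_le (b := (7 : ℕ∞)) (by norm_num) ?_)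
    · refine iSup₂_le fun k ⟨f, hf⟩ => ?_
      have h3 : ∀ i, 3 ≤ (univ.filter fun v => f v = i).card := by
        intro i
        by_contra hlt
        obtain ⟨t, ht, -, h2⟩ := exists_subsuperset_card_eq (n := 2)
          (subset_univ (univ.filter fun v => f v = i)) (by omega) (by simp)
        obtain ⟨a, b, -, rfl⟩ := card_eq_two.1 h2
        have key : ∀ a b : Fin 5 × Fin 4, ∃ v, v ≠ a ∧ v ≠ b ∧ ¬ G.Adj v a ∧ ¬ G.Adj v b := by
          decide +kernel
        obtain ⟨v, h1, h2, h3, h4⟩ := key a b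
        have hm : ∀ u, f u = i → u = a ∨ u = b := fun u hu => by
          simpa using ht (mem_filter.2 ⟨mem_univ u, hu⟩)
        obtain ⟨u, hu, huv⟩ := hf i v fun hv => (hm v hv).elim h1 h2
        rcases hm u hu with rfl | rfl
        exacts [h3 huv, h4 huv]
      have h4 := card_eq_sum_card_fiberwise (f := f) (s := univ) (t := univ)
        (fun _ _ => mem_coe.2 (mem_univ _))
      have h5 := sum_le_sum fun i (_ : i ∈ (univ : Finset (Fin k))) => h3 i
      rw [← h4] at h5
      simp only [sum_const, card_univ, Fintype.card_fin, smul_eq_mul, Fintype.card_prod] at h5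
      exact_mod_cast (by omega : k ≤ 6)
    · refine le_iInf₂ fun s hs => ?_
      obtain ⟨i, rfl⟩ := (max_iff s).1 hs
      have : ({v | mem i v} : Set _) = (univ.filter (mem i) : Finset (Fin 5 × Fin 4)) := by
        ext v; simp
      rw [this, Set.encard_coe_eq_coe_finsetCard]
      have key : ∀ i : Fin 5, (univ.filter (mem i)).card = 7 := by decide +kernel
      rw [key]; rfl

end Pool.Agent.Results.MP_72856e_co.Counter
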